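import Mathlib

set_option autoImplicit false
open Finset

namespace Pool.Agent.Results.MP_52931c_nt.NearAP

lemma two_pow_mod (e : ℕ) : 2 ^ e % 3 = 1 ∨ 2 ^ e % 3 = 2 := by
  induction e with
  | zero => simp
  | succ e ih => rw [pow_succ]; omega

lemma key (M D w a b : ℕ) (hM : 0 < M) (hD : D % 6 = 2 ∨ D % 6 = 4) (hw : w ≤ M)
    (hc : a / M % 6 = b / M % 6) (h1 : a + M * D ≤ b + w) (h2 : b ≤ a + M * D + w) : False := by
  have a1 : b / M ≤ (a + M * (D + 1)) / M := Nat.div_le_div_right (by rw [mul_add]; omega)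
  have a2 : (a + M * D) / M ≤ (b + M * 1) / M := Nat.div_le_div_right (by omega)
  rw [Nat.add_mul_div_left _ _ hM] at a1 a2
  rw [Nat.add_mul_div_left _ _ hM] at a2
  omega

lemma avoid (n L j w a b : ℕ) (hL : 2 ^ L ≤ n) (hj : j < L) (hw : w * n < 2 ^ j * 2 ^ j)
    (h3 : a % 3 = b % 3)
    (h6 : ∀ r, r ≤ Nat.log 2 L → a / 2 ^ (L - 2 ^ r - 1) % 6 = b / 2 ^ (L - 2 ^ r - 1) % 6)
    (h1 : a + 2 ^ j ≤ b + w) (h2 : b ≤ a + 2 ^ j + w) : False := by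
  have hw' : w * 2 ^ L < 2 ^ (j + j) := by
    rw [pow_add]; exact lt_of_le_of_lt (Nat.mul_le_mul_left w hL) hw
  by_cases hs : j + j ≤ L
  · have a1 : 2 ^ (j + j) ≤ 2 ^ L := Nat.pow_le_pow_right (by norm_num) hs
    have a2 : w = 0 := by
      by_contra hh
      have := Nat.mul_le_mul_right (2 ^ L) (show 1 ≤ w by omega)
      omega
    have := two_pow_mod j
    omega
  · obtain ⟨r, hr⟩ : ∃ r, r = Nat.log 2 (2 * (L - j) - 1) := ⟨_, rfl⟩
    have r1 : 2 ^ r ≤ 2 * (L - j) - 1 := hr ▸ Nat.pow_log_le_self 2 (by omega)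
    have r2 : 2 * (L - j) - 1 < 2 ^ (r + 1) := hr ▸ Nat.lt_pow_succ_log_self (by norm_num) _
    rw [pow_succ] at r2
    have r3 : r ≤ Nat.log 2 L := hr ▸ Nat.log_mono_right (by omega)
    obtain ⟨m, hm⟩ : ∃ m, m = L - 2 ^ r - 1 := ⟨_, rfl⟩
    have h7 := h6 r r3
    rw [← hm] at h7
    obtain ⟨e, he⟩ : ∃ e, j = m + (e + 1) := ⟨j - m - 1, by omega⟩
    have e1 : 2 ^ j = 2 ^ m * (2 ^ e * 2) := by rw [he, pow_add, pow_succ]
    have e2 : 2 ^ (j + j) ≤ 2 ^ m * 2 ^ L := by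
      rw [← pow_add]; exact Nat.pow_le_pow_right (by norm_num) (by omega)
    have e3 : w ≤ 2 ^ m := (Nat.lt_of_mul_lt_mul_right (lt_of_lt_of_le hw' e2)).le
    rw [e1] at h1 h2
    exact key (2 ^ m) (2 ^ e * 2) w a b (by positivity) (by have := two_pow_mod e; omega) e3 h7 h1 h2

theorem result : ∀ t : ℕ, 3 ≤ t → ∃ n₀ : ℕ, ∀ n : ℕ, n₀ ≤ n →
    ∃ A : Finset ℕ, A ⊆ Finset.Icc 1 n ∧ (n : ℝ) / (Real.log n) ^ 4 ≤ (A.card : ℝ) ∧
      ∀ j w b : ℕ, (w : ℝ) / (2 : ℝ) ^ j < (2 : ℝ) ^ j / (n : ℝ) →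
        ¬ ∀ i : ℕ, 1 ≤ i → i ≤ t - 1 →
          ∃ a ∈ A, b + i * 2 ^ j ≤ a ∧ a ≤ b + i * 2 ^ j + w := by
  intro t ht
  refine ⟨2 ^ 300, fun n hn => ?_⟩
  obtain ⟨L, hL⟩ : ∃ L, L = Nat.log 2 n := ⟨_, rfl⟩
  have n0 : 0 < n := lt_of_lt_of_le (by positivity) hn
  have L1 : 2 ^ L ≤ n := hL ▸ Nat.pow_log_le_self 2 n0.ne'
  have L2 : n < 2 ^ (L + 1) := hL ▸ Nat.lt_pow_succ_log_self (by norm_num) n
  have L3 : 300 ≤ L := by
    have := (Nat.pow_lt_pow_iff_right (by norm_num : 1 < 2)).1 (lt_of_le_of_lt hn L2)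
    omega
  obtain ⟨R, hR⟩ : ∃ R, R = Nat.log 2 L := ⟨_, rfl⟩
  have R1 : 2 ^ R ≤ L := hR ▸ Nat.pow_log_le_self 2 (by omega)
  have hlog : (L : ℝ) / 2 ≤ Real.log n := by
    have a1 : Real.log ((2 : ℝ) ^ L) ≤ Real.log n :=
      Real.log_le_log (by positivity) (by exact_mod_cast L1)
    rw [Real.log_pow] at a1
    have a2 := Real.log_two_gt_d9
    have a3 : (0 : ℝ) ≤ L := Nat.cast_nonneg _
    nlinarith
  have hc : (Fintype.card (Fin 3 × (Fin (R + 1) → Fin 6)) : ℝ) ≤ (Real.log n) ^ 4 := by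
    have a1 : 6 ^ R ≤ L ^ 3 := by
      calc 6 ^ R ≤ 8 ^ R := Nat.pow_le_pow_left (by norm_num) R
        _ = (2 ^ R) ^ 3 := by rw [← pow_mul, mul_comm, pow_mul]; norm_num
        _ ≤ L ^ 3 := Nat.pow_le_pow_left R1 3
    have a2 : (6 : ℝ) ^ R ≤ (L : ℝ) ^ 3 := by exact_mod_cast a1
    have a3 : (300 : ℝ) ≤ L := by exact_mod_cast L3
    have a4 : ((L : ℝ) / 2) ^ 4 ≤ (Real.log n) ^ 4 := pow_le_pow_left₀ (by linarith) hlog 4
    have a5 : (0 : ℝ) ≤ (L : ℝ) ^ 3 := by positivity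
    simp only [Fintype.card_prod, Fintype.card_fin, Fintype.card_pi, Finset.prod_const,
      Finset.card_univ]
    push_cast
    rw [pow_succ]
    nlinarith
  have lp : 0 < (Real.log n) ^ 4 := by
    have : (300 : ℝ) ≤ L := by exact_mod_cast L3
    have : 0 < Real.log n := by linarith
    positivity
  obtain ⟨f, hf⟩ : ∃ f : ℕ → Fin 3 × (Fin (R + 1) → Fin 6), f = fun x =>
    (⟨x % 3, Nat.mod_lt _ (by norm_num)⟩,
      fun r => ⟨x / 2 ^ (L - 2 ^ (r : ℕ) - 1) % 6, Nat.mod_lt _ (by norm_num)⟩) := ⟨_, rfl⟩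
  obtain ⟨y, _, hy⟩ := Finset.exists_le_card_fiber_of_nsmul_le_card_of_maps_to
    (s := Finset.Icc 1 n) (t := Finset.univ) (f := f) (b := (n : ℝ) / (Real.log n) ^ 4)
    (fun _ _ => mem_univ _) univ_nonempty (by
      rw [card_univ, nsmul_eq_mul, Nat.card_Icc, Nat.add_sub_cancel, mul_div_assoc',
        div_le_iff₀ lp, mul_comm]
      exact mul_le_mul_of_nonneg_left hc (Nat.cast_nonneg _))
  refine ⟨_, filter_subset _ _, hy, ?_⟩
  intro j w b hw h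
  obtain ⟨a1, m1, b1, c1⟩ := h 1 le_rfl (by omega)
  obtain ⟨a2, m2, b2, c2⟩ := h 2 (by norm_num) (by omega)
  rw [mem_filter, mem_Icc] at m1 m2
  have e : f a1 = f a2 := m1.2.trans m2.2.symm
  rw [hf] at e
  simp only [Prod.mk.injEq, Fin.mk.injEq] at e
  have hj : j < L := by
    have : 2 ^ (j + 1) < 2 ^ (L + 1) := by rw [pow_succ]; omega
    have := (Nat.pow_lt_pow_iff_right (by norm_num : 1 < 2)).1 this
    omega
  rw [div_lt_div_iff₀ (by positivity) (by exact_mod_cast n0)] at hw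
  refine avoid n L j w a1 a2 L1 hj (by exact_mod_cast hw) e.1 (fun r hr => ?_) (by omega) (by omega)
  have := congrFun e.2 ⟨r, by omega⟩
  simpa using this

end Pool.Agent.Results.MP_52931c_nt.NearAP
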